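import Pool.Agent.Y380.LN.MP

/-!
# The mountain pass lemma: passage to the limit of the levels, and the conclusion
-/

set_option autoImplicit false

open Set Metric

namespace Pool.Agent.Y380.LN

variable {X : Type*} [NormedAddCommGroup X] [NormedSpace ℝ X]

/-- the combination of two pushes -/
lemma two_push {E : Set X} {x qi qj xi xj : X} {ri rj si sj ρ D σ : ℝ}
    (hi : ∀ x ∈ E, dist x xi < ri → ∀ σ : ℝ, 0 ≤ σ → σ ≤ si → (1 - σ) • x + σ • qi ∈ E)
    (hj : ∀ x ∈ E, dist x xj < rj → ∀ σ : ℝ, 0 ≤ σ → σ ≤ sj → (1 - σ) • x + σ • qj ∈ E)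
    (hx : x ∈ E) (hxi : dist x xi < ri / 2) (hxj : dist x xj < rj / 2)
    (hρi : ρ ≤ ri / 2) (hρj : ρ ≤ rj / 2) (hρ : 0 < ρ) (hσi : σ ≤ si) (hσj : σ ≤ sj)
    (hσ0 : 0 < σ) (hσ1 : σ ≤ 1 / 2) (hD : dist x qi ≤ D) (hσD : σ * D < ρ)
    {l : ℝ} (hl0 : 0 ≤ l) (hl1 : l ≤ 1) :
    (1 - σ) • x + σ • ((1 - l) • qi + l • qj) ∈ E := by
  have hb : 0 < 1 - σ * l := by nlinarith
  set a : ℝ := σ * (1 - l) / (1 - σ * l) with ha
  have ha0 : 0 ≤ a := by
    rw [ha]; apply div_nonneg _ hb.le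
    exact mul_nonneg hσ0.le (by linarith)
  have haσ : a ≤ σ := by
    rw [ha, div_le_iff₀ hb]
    have : σ * (1 - l) ≤ σ * (1 - σ * l) := by
      apply mul_le_mul_of_nonneg_left _ hσ0.le
      nlinarith
    linarith
  have h1 : (1 - a) • x + a • qi ∈ E := hi x hx (by linarith) a ha0 (haσ.trans hσi)
  have hdist : dist ((1 - a) • x + a • qi) xj < rj := by
    have h2 : dist ((1 - a) • x + a • qi) x = a * dist x qi := dist_push x qi a ha0
    have h3 : a * dist x qi ≤ σ * D :=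
      mul_le_mul haσ hD dist_nonneg hσ0.le
    have h4 := dist_triangle ((1 - a) • x + a • qi) x xj
    linarith
  have h5 := hj _ h1 hdist (σ * l) (by positivity) (by nlinarith)
  have h6 : (1 - σ * l) • ((1 - a) • x + a • qi) + (σ * l) • qj =
      (1 - σ) • x + σ • ((1 - l) • qi + l • qj) := by
    have e1 : (1 - σ * l) * a = σ * (1 - l) := by
      rw [ha]; field_simp
    rw [smul_add, smul_smul, smul_smul, smul_add, smul_smul, smul_smul, e1]
    have e2 : (1 - σ * l) * (1 - a) = 1 - σ := by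
      rw [mul_sub, e1]; ring
    rw [e2]
    abel
  rw [← h6]
  exact h5

/-- separation passes to the limit of the levels -/
lemma sepAt_limit {f : X → ℝ} (hf : ConvexOn ℝ univ f) (hfc : Continuous f) {E : Set X}
    (hE : IsCompact E) {p : X}
    (hK : ∀ z ∈ E, (∃ r > 0, Convex ℝ (ball z r ∩ E)) ∨ Star E p z) {a b : X} {c t : ℝ}
    (hpc : f p < c) (hct : c < t)
    (hprev : ∀ t', c ≤ t' → t' < t → SepAt f E a b t') : SepAt f E a b t := by
  classical
  have hEc : IsClosed E := hE.isClosed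
  set Et : Set X := {x ∈ E | f x ≤ t} with hEt
  set M : Set X := {x ∈ E | f x = t ∧ LM f E x} with hM
  set T : Set X := {x ∈ E | f x = t ∧ ¬ LM f E x} with hT
  -- the radii at the local minimisers
  have hMr : ∀ x : X, ∃ ρ : ℝ, x ∈ M → 0 < ρ ∧ ∀ y ∈ E, dist y x < ρ → t ≤ f y := by
    intro x
    by_cases hx : x ∈ M
    · obtain ⟨_, h2, ρ, hρ, h3⟩ := hx
      exact ⟨ρ, fun _ => ⟨hρ, fun y hy hyx => h2 ▸ h3 y hy hyx⟩⟩
    · exact ⟨1, fun h => absurd h hx⟩
  choose ρM hρM using hMr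
  -- the pushes at the other points
  have hTr : ∀ x : X, ∃ (q : X) (r s : ℝ), x ∈ T → f q < t ∧ 0 < r ∧ 0 < s ∧ s ≤ 1 ∧
      ∀ x' ∈ E, dist x' x < r → ∀ σ : ℝ, 0 ≤ σ → σ ≤ s → (1 - σ) • x' + σ • q ∈ E := by
    intro x
    by_cases hx : x ∈ T
    · obtain ⟨h1, h2, h3⟩ := hx
      obtain ⟨q, hq, r, hr, s, hs, hs1, h4⟩ := exists_push hK h1 (by rw [h2]; linarith) h3
      exact ⟨q, r, s, fun _ => ⟨by rw [← h2]; exact hq, hr, hs, hs1, h4⟩⟩
    · exact ⟨0, 1, 1, fun h => absurd h hx⟩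
  choose q r s hqrs using hTr
  -- `T` is compact
  have hTcl : IsClosed T := by
    rw [← closure_subset_iff_isClosed]
    intro x hx
    have hxE : x ∈ E := hEc.closure_subset_iff.2 (fun y hy => hy.1) hx
    have hfx : f x = t := by
      have h1 : IsClosed {x | f x = t} := isClosed_eq hfc continuous_const
      exact h1.closure_subset_iff.2 (fun y hy => hy.2.1) hx
    refine ⟨hxE, hfx, ?_⟩
    rintro ⟨ρ, hρ, hmin⟩
    rw [Metric.mem_closure_iff] at hx
    obtain ⟨y, hy, hxy⟩ := hx ρ hρ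
    rw [dist_comm] at hxy
    exact hy.2.2 (LM.of_near hmin hxy (by rw [hfx, hy.2.1]))
  have hTco : IsCompact T := hE.of_isClosed_subset hTcl (fun x hx => hx.1)
  obtain ⟨F, hFT, hFcov⟩ := hTco.elim_nhds_subcover (fun x => ball x (r x / 2)) (by
    intro x hx
    exact ball_mem_nhds x (by have := (hqrs x hx).2.1; linarith))
  -- uniform constants
  obtain ⟨ρ, hρ, hρF⟩ := exists_pos_le F (fun i => r i / 2)
    (fun i hi => by have := (hqrs i (hFT i hi)).2.1; linarith)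
  obtain ⟨s0, hs0, hs0F⟩ := exists_pos_le F s (fun i hi => (hqrs i (hFT i hi)).2.2.1)
  obtain ⟨γ, hγ, hγF⟩ := exists_pos_le F (fun i => t - f (q i))
    (fun i hi => by have := (hqrs i (hFT i hi)).1; linarith)
  obtain ⟨R0, hR0⟩ := hE.isBounded.subset_closedBall (0 : X)
  obtain ⟨D1, hD1, hD1F⟩ := exists_ge F (fun i => ‖q i‖)
  set D : ℝ := |R0| + D1 with hD
  have hD0 : 0 < D := by positivity
  have hDF : ∀ x ∈ E, ∀ i ∈ F, dist x (q i) ≤ D := by
    intro x hx i hi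
    have h1 : ‖x‖ ≤ R0 := by
      have := hR0 hx
      rwa [mem_closedBall_zero_iff] at this
    have h2 := dist_le_norm_add_norm x (q i)
    have h3 := hD1F i hi
    have h4 := le_abs_self R0
    linarith
  obtain ⟨σ, hσ0, hσs, hσ1, hσD⟩ : ∃ σ : ℝ, 0 < σ ∧ σ ≤ s0 ∧ σ ≤ 1 / 2 ∧ σ * D < ρ := by
    refine ⟨min (min s0 (1 / 2)) (ρ / D / 2), ?_, ?_, ?_, ?_⟩
    · apply lt_min (lt_min hs0 (by norm_num)) (by positivity)
    · exact (min_le_left _ _).trans (min_le_left _ _)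
    · exact (min_le_left _ _).trans (min_le_right _ _)
    · have h1 : min (min s0 (1 / 2)) (ρ / D / 2) * D ≤ ρ / D / 2 * D :=
        mul_le_mul_of_nonneg_right (min_le_right _ _) hD0.le
      have h2 : ρ / D / 2 * D = ρ / 2 := by field_simp
      linarith
  -- the open set covering the level `t`
  set O : Set X := (⋃ i ∈ F, ball i (r i / 2)) ∪ ⋃ m ∈ M, ball m (ρM m) with hO
  have hOo : IsOpen O := by
    apply IsOpen.union
    · exact isOpen_biUnion fun i _ => isOpen_ball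
    · exact isOpen_biUnion fun i _ => isOpen_ball
  have hlev : ∀ x ∈ E, f x = t → x ∈ O := by
    intro x hx hfx
    by_cases hm : LM f E x
    · right
      exact mem_biUnion (show x ∈ M from ⟨hx, hfx, hm⟩)
        (mem_ball_self (hρM x ⟨hx, hfx, hm⟩).1)
    · left
      exact hFcov (show x ∈ T from ⟨hx, hfx, hm⟩)
  -- the level `t0`
  obtain ⟨t0, hct0, ht0t, hσγ, hband⟩ : ∃ t0 : ℝ, c ≤ t0 ∧ t0 < t ∧ t - σ * γ ≤ t0 ∧
      ∀ x ∈ E, f x ≤ t → t0 ≤ f x → x ∈ O := by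
    have hKc : IsCompact (Et \ O) := by
      have : IsClosed Et := hEc.inter (isClosed_le hfc continuous_const)
      exact (hE.of_isClosed_subset this (fun x hx => hx.1)).diff hOo
    obtain ⟨m, hmt, hmb⟩ : ∃ m : ℝ, m < t ∧ ∀ x ∈ Et \ O, f x ≤ m := by
      rcases (Et \ O).eq_empty_or_nonempty with h0 | h0
      · exact ⟨t - 1, by linarith, fun x hx => by rw [h0] at hx; exact absurd hx (notMem_empty x)⟩
      · obtain ⟨y, hy, hmax⟩ := hKc.exists_isMaxOn h0 hfc.continuousOn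
        refine ⟨f y, ?_, fun x hx => hmax hx⟩
        rcases lt_or_eq_of_le hy.1.2 with h | h
        · exact h
        · exact absurd (hlev y hy.1.1 h) hy.2
    have hm1 : max (max c (t - σ * γ)) m < t := by
      apply max_lt (max_lt hct _) hmt
      have := mul_pos hσ0 hγ
      linarith
    refine ⟨(max (max c (t - σ * γ)) m + t) / 2, ?_, by linarith, ?_, ?_⟩
    · have := (le_max_left c (t - σ * γ)).trans (le_max_left _ m)
      linarith
    · have := (le_max_right c (t - σ * γ)).trans (le_max_left _ m)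
      linarith
    · intro x hx hxt h
      by_contra hno
      have h1 := hmb x ⟨⟨hx, hxt⟩, hno⟩
      have h2 := le_max_right (max c (t - σ * γ)) m
      linarith
  obtain ⟨P0, R0', hP0, hR0', hPR, hU, hbP, haR⟩ := hprev t0 hct0 ht0t
  -- the push maps
  set g : X → X → X := fun i x => (1 - σ) • x + σ • q i with hg
  have hgc : ∀ i, Continuous (g i) := fun i => by
    simp only [hg]; fun_prop
  have hqt0 : ∀ i ∈ F, f (q i) ≤ t0 := by
    intro i hi
    have h1 := hγF i hi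
    have h2 : σ * γ ≤ γ := by nlinarith
    linarith
  have hgE : ∀ i ∈ F, ∀ x ∈ Et, dist x i < r i / 2 → g i x ∈ {x ∈ E | f x ≤ t0} := by
    intro i hi x hx hxi
    have h0 := hqrs i (hFT i hi)
    refine ⟨h0.2.2.2.2 x hx.1 (by linarith [h0.2.1]) σ hσ0.le (hσs.trans (hs0F i hi)), ?_⟩
    have h1 := conv_le hf x (q i) hσ0.le (by linarith : σ ≤ 1)
    have h2 := hγF i hi
    have h3 := hx.2
    have h4 : (1 - σ) * f x + σ * f (q i) ≤ t - σ * γ := by nlinarith
    simp only [hg]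
    linarith
  -- a segment between two pushes
  have hcomp : ∀ i ∈ F, ∀ j ∈ F, ∀ x ∈ Et, dist x i < r i / 2 → dist x j < r j / 2 →
      segment ℝ (g i x) (g j x) ⊆ {x ∈ E | f x ≤ t0} := by
    intro i hi j hj x hx hxi hxj
    rintro _ ⟨α, β, hα, hβ, hαβ, rfl⟩
    have h0i := hqrs i (hFT i hi)
    have h0j := hqrs j (hFT j hj)
    have hβ1 : β ≤ 1 := by linarith
    have hα' : α = 1 - β := by linarith
    have e : α • g i x + β • g j x = (1 - σ) • x + σ • ((1 - β) • q i + β • q j) := by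
      simp only [hg]
      rw [hα']
      simp only [smul_add, smul_smul]
      have : ((1 - β) * (1 - σ)) • x + (β * (1 - σ)) • x = (1 - σ) • x := by
        rw [← add_smul]; congr 1; ring
      rw [← this, mul_comm (1 - β) σ, mul_comm β σ]
      abel
    rw [e]
    refine ⟨two_push h0i.2.2.2.2 h0j.2.2.2.2 hx.1 hxi hxj (hρF i hi) (hρF j hj) hρ
      (hσs.trans (hs0F i hi)) (hσs.trans (hs0F j hj)) hσ0 hσ1 (hDF x hx.1 i hi) hσD hβ hβ1, ?_⟩
    have h1 := conv_le hf x ((1 - β) • q i + β • q j) hσ0.le (by linarith : σ ≤ 1)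
    have h2 := conv_le hf (q i) (q j) hβ hβ1
    have h3 := hγF i hi
    have h4 := hγF j hj
    have h5 : (1 - β) * f (q i) + β * f (q j) ≤ t - γ := by nlinarith
    have h6 := hx.2
    have h7 : (1 - σ) * f x + σ * f ((1 - β) • q i + β • q j) ≤ t - σ * γ := by nlinarith
    linarith
  -- a segment between a point and its push
  have hcomp0 : ∀ i ∈ F, ∀ x ∈ E, f x ≤ t0 → dist x i < r i / 2 →
      segment ℝ x (g i x) ⊆ {x ∈ E | f x ≤ t0} := by
    intro i hi x hx hfx hxi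
    rintro _ ⟨α, β, hα, hβ, hαβ, rfl⟩
    have h0 := hqrs i (hFT i hi)
    have hβ1 : β ≤ 1 := by linarith
    have hα' : α = 1 - β := by linarith
    have e : α • x + β • g i x = (1 - β * σ) • x + (β * σ) • q i := by
      simp only [hg]
      rw [hα', smul_add, smul_smul, smul_smul, ← add_assoc, ← add_smul]
      congr 2; ring
    rw [e]
    have hb0 : 0 ≤ β * σ := by positivity
    have hbσ : β * σ ≤ σ := by nlinarith
    refine ⟨h0.2.2.2.2 x hx (by linarith [h0.2.1]) (β * σ) hb0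
      (hbσ.trans (hσs.trans (hs0F i hi))), ?_⟩
    have h1 := conv_le hf x (q i) hb0 (by linarith : β * σ ≤ 1)
    have h2 := hqt0 i hi
    have h3 : (1 - β * σ) * f x + (β * σ) * f (q i) ≤ t0 := by nlinarith
    linarith
  -- no local minimiser of level `t` is near the centres
  have hMF : ∀ i ∈ F, ∀ x ∈ M, ¬ dist x i < r i / 2 := by
    intro i hi x hx hxi
    have h0 := hqrs i (hFT i hi)
    refine not_LM_of_star (r := 1) hf (q := q i) (x := x) h0.2.2.1 h0.2.2.2.1 ?_ ?_ one_pos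
      hx.2.2
    · intro σ' h1 h2
      exact h0.2.2.2.2 x hx.1 (by linarith [h0.2.1]) σ' h1 h2
    · rw [hx.2.1]; exact h0.1
  have hUsymm : R0' ∪ P0 = {x ∈ E | f x ≤ t0} := by rw [union_comm]; exact hU
  -- the two sets
  set P' : Set X := {x ∈ Et | x ∈ P0 ∨ ∃ i ∈ F, dist x i < r i / 2 ∧ g i x ∈ P0} with hP'
  set R' : Set X := {x ∈ Et | x ∈ R0' ∨ (∃ i ∈ F, dist x i < r i / 2 ∧ g i x ∈ R0') ∨ x ∈ M}
    with hR'
  -- if a point of `P'` (resp. `R'`) is near a centre then its push is in `P0` (resp. `R0'`)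
  have hPpush : ∀ x ∈ P', ∀ i ∈ F, dist x i < r i / 2 → g i x ∈ P0 := by
    rintro x ⟨hxt, h | ⟨j, hj, hxj, hgj⟩⟩ i hi hxi
    · have hx0 : x ∈ {x ∈ E | f x ≤ t0} := by rw [← hU]; exact Or.inl h
      exact seg_class hP0 hR0' hPR hU (hcomp0 i hi x hx0.1 hx0.2 hxi) h
    · exact seg_class hP0 hR0' hPR hU (hcomp j hj i hi x hxt hxj hxi) hgj
  have hRpush : ∀ x ∈ R', ∀ i ∈ F, dist x i < r i / 2 → g i x ∈ R0' := by
    rintro x ⟨hxt, h | ⟨j, hj, hxj, hgj⟩ | h⟩ i hi hxi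
    · have hx0 : x ∈ {x ∈ E | f x ≤ t0} := by rw [← hU]; exact Or.inr h
      exact seg_class hR0' hP0 hPR.symm hUsymm (hcomp0 i hi x hx0.1 hx0.2 hxi) h
    · exact seg_class hR0' hP0 hPR.symm hUsymm (hcomp j hj i hi x hxt hxj hxi) hgj
    · exact absurd hxi (hMF i hi x h)
  have hdisj : Disjoint P' R' := by
    rw [Set.disjoint_left]
    intro x hxP hxR
    by_cases hnear : ∃ i ∈ F, dist x i < r i / 2
    · obtain ⟨i, hi, hxi⟩ := hnear
      exact Set.disjoint_left.1 hPR (hPpush x hxP i hi hxi) (hRpush x hxR i hi hxi)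
    · have h1 : x ∈ P0 := by
        rcases hxP.2 with h | ⟨i, hi, hxi, _⟩
        · exact h
        · exact absurd ⟨i, hi, hxi⟩ hnear
      rcases hxR.2 with h | ⟨i, hi, hxi, _⟩ | h
      · exact Set.disjoint_left.1 hPR h1 h
      · exact hnear ⟨i, hi, hxi⟩
      · have hx0 : x ∈ {x ∈ E | f x ≤ t0} := by rw [← hU]; exact Or.inl h1
        have := hx0.2
        rw [h.2.1] at this
        linarith
  have hcover : P' ∪ R' = Et := by
    ext x
    constructor
    · rintro (h | h) <;> exact h.1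
    · intro hx
      rcases le_or_gt (f x) t0 with h | h
      · have hx0 : x ∈ P0 ∪ R0' := by rw [hU]; exact ⟨hx.1, h⟩
        rcases hx0 with h1 | h1
        · left; exact ⟨hx, Or.inl h1⟩
        · right; exact ⟨hx, Or.inl h1⟩
      · rcases hband x hx.1 hx.2 h.le with h1 | h1
        · rw [mem_iUnion₂] at h1
          obtain ⟨i, hi, hxi⟩ := h1
          have h2 : g i x ∈ P0 ∪ R0' := by rw [hU]; exact hgE i hi x hx hxi
          rcases h2 with h3 | h3
          · left; exact ⟨hx, Or.inr ⟨i, hi, hxi, h3⟩⟩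
          · right; exact ⟨hx, Or.inr (Or.inl ⟨i, hi, hxi, h3⟩)⟩
        · rw [mem_iUnion₂] at h1
          obtain ⟨m, hm, hxm⟩ := h1
          right
          refine ⟨hx, Or.inr (Or.inr ⟨hx.1, ?_, ?_⟩)⟩
          · exact le_antisymm hx.2 ((hρM m hm).2 x hx.1 hxm)
          · refine LM.of_near (x := m) (r := ρM m) ?_ hxm (by rw [hm.2.1]; exact hx.2)
            intro y hy hym
            rw [hm.2.1]
            exact (hρM m hm).2 y hy hym
  have hEtcl : IsClosed Et := hEc.inter (isClosed_le hfc continuous_const)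
  -- relative openness
  have hopen : ∀ (A B A0 B0 : Set X), IsClosed A0 → IsClosed B0 → Disjoint A0 B0 →
      A0 ∪ B0 = {x ∈ E | f x ≤ t0} → A ∪ B = Et → Disjoint A B →
      (∀ x ∈ Et, x ∈ A0 → x ∈ A) →
      (∀ x ∈ Et, ∀ i ∈ F, dist x i < r i / 2 → g i x ∈ A0 → x ∈ A) →
      (∀ x ∈ A, ∀ i ∈ F, dist x i < r i / 2 → g i x ∈ A0) →
      (∀ x ∈ A, (¬ ∃ i ∈ F, dist x i < r i / 2) → x ∈ A0 ∨ (x ∈ M ∧ M ⊆ A)) →
      IsClosed B := by
    intro A B A0 B0 hA0 hB0 hAB0 hU0 hAB hdAB hA0A hgA hApush hAno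
    rw [← closure_subset_iff_isClosed]
    intro x hx
    have hxt : x ∈ Et := hEtcl.closure_subset_iff.2 (fun y hy => by rw [← hAB]; exact Or.inr hy) hx
    have hxAB : x ∈ A ∪ B := by rw [hAB]; exact hxt
    rcases hxAB with hxA | hxB
    swap
    · exact hxB
    exfalso
    -- a neighbourhood of `x` in `Et` lies in `A`
    have hnb : ∃ ε > 0, ∀ y ∈ Et, dist y x < ε → y ∈ A := by
      by_cases hnear : ∃ i ∈ F, dist x i < r i / 2
      · obtain ⟨i, hi, hxi⟩ := hnear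
        have h1 : g i x ∈ A0 := hApush x hxA i hi hxi
        have h2 : g i x ∉ B0 := fun h => Set.disjoint_left.1 hAB0 h1 h
        have h3 : {y | g i y ∈ B0ᶜ} ∈ nhds x :=
          (hgc i).continuousAt.preimage_mem_nhds (hB0.isOpen_compl.mem_nhds h2)
        have h4 : ball i (r i / 2) ∈ nhds x := isOpen_ball.mem_nhds hxi
        obtain ⟨ε, hε, hsub⟩ := Metric.mem_nhds_iff.1 (Filter.inter_mem h3 h4)
        refine ⟨ε, hε, fun y hy hyx => ?_⟩
        have h5 := hsub (mem_ball.2 hyx)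
        have h6 : g i y ∈ A0 ∪ B0 := by rw [hU0]; exact hgE i hi y hy h5.2
        exact hgA y hy i hi h5.2 (h6.resolve_right h5.1)
      · rcases hAno x hxA hnear with h1 | ⟨h1, hMA⟩
        · have hx0 : x ∈ {x ∈ E | f x ≤ t0} := by rw [← hU0]; exact Or.inl h1
          have hlt : f x < t0 := by
            by_contra hge
            push Not at hge
            rcases hband x hxt.1 hxt.2 hge with h2 | h2
            · rw [mem_iUnion₂] at h2
              obtain ⟨i, hi, hxi⟩ := h2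
              exact hnear ⟨i, hi, hxi⟩
            · rw [mem_iUnion₂] at h2
              obtain ⟨m, hm, hxm⟩ := h2
              have h3 := (hρM m hm).2 x hxt.1 hxm
              have h4 := hx0.2
              linarith
          have h2 : x ∉ B0 := fun h => Set.disjoint_left.1 hAB0 h1 h
          have h3 : B0ᶜ ∈ nhds x := hB0.isOpen_compl.mem_nhds h2
          have h4 : {y | f y < t0} ∈ nhds x := (isOpen_lt hfc continuous_const).mem_nhds hlt
          obtain ⟨ε, hε, hsub⟩ := Metric.mem_nhds_iff.1 (Filter.inter_mem h3 h4)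
          refine ⟨ε, hε, fun y hy hyx => ?_⟩
          have h5 := hsub (mem_ball.2 hyx)
          have h6 : y ∈ A0 ∪ B0 := by rw [hU0]; exact ⟨hy.1, le_of_lt h5.2⟩
          exact hA0A y hy (h6.resolve_right h5.1)
        · refine ⟨ρM x, (hρM x h1).1, fun y hy hyx => hMA ⟨hy.1, ?_, ?_⟩⟩
          · exact le_antisymm hy.2 ((hρM x h1).2 y hy.1 hyx)
          · refine LM.of_near (x := x) (r := ρM x) ?_ hyx (by rw [h1.2.1]; exact hy.2)
            intro z hz hzx
            rw [h1.2.1]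
            exact (hρM x h1).2 z hz hzx
    obtain ⟨ε, hε, hsub⟩ := hnb
    rw [Metric.mem_closure_iff] at hx
    obtain ⟨y, hy, hxy⟩ := hx ε hε
    rw [dist_comm] at hxy
    have hyt : y ∈ Et := by rw [← hAB]; exact Or.inr hy
    exact Set.disjoint_left.1 hdAB (hsub y hyt hxy) hy
  have hR'cl : IsClosed R' := by
    refine hopen P' R' P0 R0' hP0 hR0' hPR hU hcover hdisj ?_ ?_ hPpush ?_
    · intro x hx h; exact ⟨hx, Or.inl h⟩
    · intro x hx i hi hxi h; exact ⟨hx, Or.inr ⟨i, hi, hxi, h⟩⟩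
    · rintro x ⟨_, h | ⟨i, hi, hxi, _⟩⟩ hno
      · left; exact h
      · exact absurd ⟨i, hi, hxi⟩ hno
  have hP'cl : IsClosed P' := by
    refine hopen R' P' R0' P0 hR0' hP0 hPR.symm hUsymm (by rw [union_comm]; exact hcover)
      hdisj.symm ?_ ?_ hRpush ?_
    · intro x hx h; exact ⟨hx, Or.inl h⟩
    · intro x hx i hi hxi h; exact ⟨hx, Or.inr (Or.inl ⟨i, hi, hxi, h⟩)⟩
    · rintro x ⟨_, h | ⟨i, hi, hxi, _⟩ | h⟩ hno
      · left; exact h
      · exact absurd ⟨i, hi, hxi⟩ hno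
      · right
        refine ⟨h, fun y hy => ⟨⟨hy.1, hy.2.1.le⟩, Or.inr (Or.inr hy)⟩⟩
  have hb0 : b ∈ {x ∈ E | f x ≤ t0} := by rw [← hU]; exact Or.inl hbP
  have ha0 : a ∈ {x ∈ E | f x ≤ t0} := by rw [← hU]; exact Or.inr haR
  exact ⟨P', R', hP'cl, hR'cl, hdisj, hcover, ⟨⟨hb0.1, hb0.2.trans ht0t.le⟩, Or.inl hbP⟩,
    ⟨⟨ha0.1, ha0.2.trans ht0t.le⟩, Or.inl haR⟩⟩

/-- separation is inherited by lower levels -/
lemma SepAt.mono {f : X → ℝ} (hfc : Continuous f) {a b : X} {E : Set X} {t t' : ℝ}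
    (h : SepAt f E a b t) (htt : t' ≤ t) (ha : f a ≤ t') (hb : f b ≤ t') :
    SepAt f E a b t' := by
  obtain ⟨P, R, hP, hR, hPR, hU, hbP, haR⟩ := h
  have hc : IsClosed {x | f x ≤ t'} := isClosed_le hfc continuous_const
  refine ⟨P ∩ {x | f x ≤ t'}, R ∩ {x | f x ≤ t'}, hP.inter hc, hR.inter hc,
    hPR.mono inter_subset_left inter_subset_left, ?_, ⟨hbP, hb⟩, ⟨haR, ha⟩⟩
  rw [← union_inter_distrib_right, hU]
  ext x
  constructor
  · rintro ⟨⟨h1, h2⟩, h3⟩; exact ⟨h1, h3⟩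
  · rintro ⟨h1, h2⟩; exact ⟨⟨h1, h2.trans htt⟩, h2⟩

/-- **The mountain pass lemma.** -/
theorem mountain_pass {f : X → ℝ} (hf : ConvexOn ℝ univ f) (hfc : Continuous f) {E : Set X}
    (hE : IsCompact E) (hEc : IsPreconnected E) {p : X}
    (hK : ∀ z ∈ E, (∃ r > 0, Convex ℝ (ball z r ∩ E)) ∨ Star E p z) {a b : X} (ha : a ∈ E)
    (hb : b ∈ E) (hLM : LM f E b) (hp : f p < f b) : f b ≤ f a := by
  by_contra hab
  push Not at hab
  set c := f b with hc
  -- no separation at the level of the maximum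
  obtain ⟨M, hM⟩ : ∃ M : ℝ, ∀ x ∈ E, f x ≤ M := by
    obtain ⟨y, _, hy⟩ := hE.exists_isMaxOn ⟨a, ha⟩ hfc.continuousOn
    exact ⟨f y, fun x hx => hy hx⟩
  have hno : ∀ t, M ≤ t → ¬ SepAt f E a b t := by
    rintro t hMt ⟨P, R, hP, hR, hPR, hU, hbP, haR⟩
    have h1 : {x ∈ E | f x ≤ t} = E := by
      ext x
      exact ⟨fun h => h.1, fun h => ⟨h, (hM x h).trans hMt⟩⟩
    rw [h1] at hU
    obtain ⟨x, _, hxP, hxR⟩ := (isPreconnected_closed_iff.1 hEc) P R hP hR (by rw [hU])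
      ⟨b, hb, hbP⟩ ⟨a, ha, haR⟩
    exact Set.disjoint_left.1 hPR hxP hxR
  set S : Set ℝ := {t | c ≤ t ∧ SepAt f E a b t} with hS
  have hbase : SepAt f E a b c := sepAt_base hf hfc hE hK ha hb hLM hp hab
  have hcS : c ∈ S := ⟨le_rfl, hbase⟩
  have hbdd : BddAbove S := by
    refine ⟨M, fun t ht => ?_⟩
    by_contra hlt
    push Not at hlt
    exact hno t hlt.le ht.2
  set τ := sSup S with hτ
  have hcτ : c ≤ τ := le_csSup hbdd hcS
  have hprev : ∀ t', c ≤ t' → t' < τ → SepAt f E a b t' := by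
    intro t' hct' ht'
    obtain ⟨t, ht, htt⟩ := exists_lt_of_lt_csSup ⟨c, hcS⟩ ht'
    exact ht.2.mono hfc htt.le (hab.le.trans hct') hct'
  have hτS : SepAt f E a b τ := by
    rcases hcτ.lt_or_eq with h | h
    · exact sepAt_limit hf hfc hE hK hp h hprev
    · rw [← h]; exact hbase
  obtain ⟨t', ht', hsep⟩ := sepAt_right hfc hE hτS
  have : t' ≤ τ := le_csSup hbdd ⟨hcτ.trans ht'.le, hsep⟩
  linarith

end Pool.Agent.Y380.LN
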