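import Mathlib

/-!
# A mountain pass lemma without critical points

`E` is a compact connected set. Near each of its points `E` is convex, or the points of `E` can be
moved a little towards `p` inside `E`. Then a convex function `f` has no local minimiser on `E`
above the level `f p` besides the global ones.
-/

set_option autoImplicit false

open Set Metric

namespace Pool.Agent.Y380.LN

variable {X : Type*} [NormedAddCommGroup X] [NormedSpace ℝ X]

/-- the points of `E` near `z` can be moved towards `q` inside `E` -/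
def Star (E : Set X) (q z : X) : Prop :=
  ∃ r : ℝ, 0 < r ∧ ∃ s : ℝ, 0 < s ∧ s ≤ 1 ∧ ∀ x ∈ E, dist x z < r → ∀ σ : ℝ, 0 ≤ σ → σ ≤ s →
    (1 - σ) • x + σ • q ∈ E

/-- local minimiser of `f` on `E` -/
def LM (f : X → ℝ) (E : Set X) (x : X) : Prop :=
  ∃ r : ℝ, 0 < r ∧ ∀ y ∈ E, dist y x < r → f x ≤ f y

/-- closed separation of the sublevel set -/
def SepAt (f : X → ℝ) (E : Set X) (a b : X) (t : ℝ) : Prop :=
  ∃ P R : Set X, IsClosed P ∧ IsClosed R ∧ Disjoint P R ∧ P ∪ R = {x ∈ E | f x ≤ t} ∧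
    b ∈ P ∧ a ∈ R

lemma conv_le {f : X → ℝ} (hf : ConvexOn ℝ univ f) (x q : X) {σ : ℝ} (h0 : 0 ≤ σ) (h1 : σ ≤ 1) :
    f ((1 - σ) • x + σ • q) ≤ (1 - σ) * f x + σ * f q :=
  hf.2 (mem_univ x) (mem_univ q) (by linarith) h0 (by ring)

lemma dist_push (x q : X) (σ : ℝ) (h0 : 0 ≤ σ) :
    dist ((1 - σ) • x + σ • q) x = σ * dist x q := by
  have h : (1 - σ) • x + σ • q - x = σ • (q - x) := by
    rw [sub_smul, one_smul, smul_sub]; abel
  rw [dist_eq_norm, h, norm_smul, Real.norm_of_nonneg h0, dist_comm, dist_eq_norm]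

/-- a point which can be pushed down is not a local minimiser -/
lemma not_LM_of_star {f : X → ℝ} (hf : ConvexOn ℝ univ f) {E : Set X} {q x : X} {r s : ℝ}
    (hs : 0 < s) (hs1 : s ≤ 1)
    (h : ∀ σ : ℝ, 0 ≤ σ → σ ≤ s → (1 - σ) • x + σ • q ∈ E) (hq : f q < f x)
    (_hr : 0 < r) : ¬ LM f E x := by
  rintro ⟨ρ, hρ, hmin⟩
  set D := dist x q with hD
  have hD0 : 0 ≤ D := dist_nonneg
  set σ := min s (ρ / (D + 1) / 2) with hσ
  have hσ0 : 0 < σ := by
    rw [hσ]; apply lt_min hs; positivity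
  have hσs : σ ≤ s := min_le_left _ _
  have hσρ : σ ≤ ρ / (D + 1) / 2 := min_le_right _ _
  have h1 := h σ hσ0.le hσs
  have h2 : dist ((1 - σ) • x + σ • q) x < ρ := by
    rw [dist_push x q σ hσ0.le]
    have h3 : σ * D ≤ ρ / (D + 1) / 2 * D := mul_le_mul_of_nonneg_right hσρ hD0
    have h4 : ρ / (D + 1) / 2 * D < ρ := by
      rw [div_div, div_mul_eq_mul_div, div_lt_iff₀ (by positivity)]
      nlinarith
    linarith
  have h5 := hmin _ h1 h2
  have h6 := conv_le hf x q hσ0.le (hσs.trans hs1)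
  nlinarith

/-- a point of `E` which is not a local minimiser can be pushed down -/
lemma exists_push {f : X → ℝ} {E : Set X} {p : X}
    (hK : ∀ z ∈ E, (∃ r > 0, Convex ℝ (ball z r ∩ E)) ∨ Star E p z) {x : X} (hx : x ∈ E)
    (hp : f p < f x) (hm : ¬ LM f E x) : ∃ q, f q < f x ∧ Star E q x := by
  rcases hK x hx with ⟨r, hr, hc⟩ | h
  · have : ∃ y ∈ E, dist y x < r ∧ f y < f x := by
      by_contra hno
      push Not at hno
      exact hm ⟨r, hr, fun y hy hyx => hno y hy hyx⟩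
    obtain ⟨y, hy, hyx, hfy⟩ := this
    refine ⟨y, hfy, r, hr, 1, one_pos, le_rfl, ?_⟩
    intro x' hx' hd σ h0 h1
    have := hc (x := x') ⟨hd, hx'⟩ (y := y) ⟨hyx, hy⟩ (a := 1 - σ) (b := σ) (by linarith) h0
      (by ring)
    exact this.2
  · exact ⟨p, hp, h⟩

lemma LM.of_near {f : X → ℝ} {E : Set X} {x y : X} {r : ℝ} (hmin : ∀ y ∈ E, dist y x < r → f x ≤ f y)
    (hyx : dist y x < r) (hfy : f y ≤ f x) : LM f E y := by
  refine ⟨r - dist y x, by linarith, fun z hz hzy => ?_⟩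
  have h1 : dist z x < r := by
    have := dist_triangle z y x
    linarith
  exact hfy.trans (hmin z hz h1)

/-- separation at the level of the local minimiser -/
lemma sepAt_base {f : X → ℝ} (hf : ConvexOn ℝ univ f) (hfc : Continuous f) {E : Set X}
    (hE : IsCompact E) {p : X}
    (hK : ∀ z ∈ E, (∃ r > 0, Convex ℝ (ball z r ∩ E)) ∨ Star E p z) {a b : X} (ha : a ∈ E)
    (hb : b ∈ E) (hLM : LM f E b) (hp : f p < f b) (hab : f a < f b) : SepAt f E a b (f b) := by
  set c := f b with hc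
  set M : Set X := {x ∈ E | f x = c ∧ LM f E x} with hM
  have hEc : IsClosed E := hE.isClosed
  refine ⟨M, {x ∈ E | f x ≤ c} \ M, ?_, ?_, disjoint_sdiff_right, ?_, ⟨hb, rfl, hLM⟩, ?_⟩
  · -- closed
    rw [← closure_subset_iff_isClosed]
    intro x hx
    have hxE : x ∈ E := hEc.closure_subset_iff.2 (fun y hy => hy.1) hx
    have hfx : f x = c := by
      have h1 : IsClosed {x | f x = c} := isClosed_eq hfc continuous_const
      exact h1.closure_subset_iff.2 (fun y hy => hy.2.1) hx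
    refine ⟨hxE, hfx, ?_⟩
    rw [Metric.mem_closure_iff] at hx
    rcases hK x hxE with ⟨r, hr, hconv⟩ | ⟨r, hr, s, hs, hs1, hst⟩
    · obtain ⟨y, hy, hxy⟩ := hx r hr
      rw [dist_comm] at hxy
      refine ⟨r, hr, fun z hz hzx => ?_⟩
      by_contra hlt
      push Not at hlt
      refine not_LM_of_star (r := 1) hf (q := z) (x := y) one_pos le_rfl ?_ ?_ one_pos hy.2.2
      · intro σ h0 h1
        exact (hconv (x := y) ⟨hxy, hy.1⟩ (y := z) ⟨hzx, hz⟩ (a := 1 - σ) (b := σ)
          (by linarith) h0 (by ring)).2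
      · rw [hy.2.1]; linarith
    · exfalso
      obtain ⟨y, hy, hxy⟩ := hx r hr
      rw [dist_comm] at hxy
      refine not_LM_of_star (r := 1) hf (q := p) (x := y) hs hs1 ?_ ?_ one_pos hy.2.2
      · intro σ h0 h1
        exact hst y hy.1 hxy σ h0 h1
      · rw [hy.2.1]; exact hp
  · -- the complement is closed
    rw [← closure_subset_iff_isClosed]
    intro x hx
    have hcl : IsClosed {x ∈ E | f x ≤ c} :=
      hEc.inter (isClosed_le hfc continuous_const)
    have hxE : x ∈ {x ∈ E | f x ≤ c} := hcl.closure_subset_iff.2 (fun y hy => hy.1) hx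
    refine ⟨hxE, ?_⟩
    rintro ⟨_, hfx, r, hr, hmin⟩
    rw [Metric.mem_closure_iff] at hx
    obtain ⟨y, hy, hxy⟩ := hx r hr
    rw [dist_comm] at hxy
    apply hy.2
    refine ⟨hy.1.1, le_antisymm hy.1.2 (hfx ▸ hmin y hy.1.1 hxy), ?_⟩
    exact LM.of_near hmin hxy (by rw [hfx]; exact hy.1.2)
  · apply union_diff_cancel
    intro x hx
    exact ⟨hx.1, hx.2.1.le⟩
  · refine ⟨⟨ha, hab.le⟩, ?_⟩
    rintro ⟨_, h, _⟩
    rw [h] at hab
    exact lt_irrefl _ hab

/-- separation is an open condition to the right -/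
lemma sepAt_right {f : X → ℝ} (hfc : Continuous f) {E : Set X} (hE : IsCompact E) {a b : X}
    {t : ℝ} (h : SepAt f E a b t) : ∃ t' > t, SepAt f E a b t' := by
  obtain ⟨P, R, hP, hR, hPR, hU, hb, ha⟩ := h
  obtain ⟨U, V, hUo, hVo, hPU, hRV, hUV⟩ := normal_separation hP hR hPR
  have hK : IsCompact (E \ (U ∪ V)) := hE.diff (hUo.union hVo)
  have hEt : {x ∈ E | f x ≤ t} ⊆ U ∪ V := by
    rw [← hU]
    exact union_subset_union hPU hRV
  obtain ⟨t', ht', hsub⟩ : ∃ t' > t, {x ∈ E | f x ≤ t'} ⊆ U ∪ V := by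
    rcases (E \ (U ∪ V)).eq_empty_or_nonempty with h0 | h0
    · refine ⟨t + 1, by linarith, fun x hx => ?_⟩
      by_contra hno
      have : x ∈ E \ (U ∪ V) := ⟨hx.1, hno⟩
      rw [h0] at this
      exact this
    · obtain ⟨m, hm, hmin⟩ := hK.exists_isMinOn h0 hfc.continuousOn
      have hfm : t < f m := by
        by_contra hle
        push Not at hle
        exact hm.2 (hEt ⟨hm.1, hle⟩)
      refine ⟨(t + f m) / 2, by linarith, fun x hx => ?_⟩
      by_contra hno
      have h1 : f m ≤ f x := hmin (show x ∈ E \ (U ∪ V) from ⟨hx.1, hno⟩)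
      have h2 := hx.2
      linarith
  have hcl : IsClosed {x ∈ E | f x ≤ t'} :=
    hE.isClosed.inter (isClosed_le hfc continuous_const)
  have hbm : b ∈ {x ∈ E | f x ≤ t} := by rw [← hU]; exact Or.inl hb
  have ham : a ∈ {x ∈ E | f x ≤ t} := by rw [← hU]; exact Or.inr ha
  refine ⟨t', ht', {x ∈ E | f x ≤ t'} \ V, {x ∈ E | f x ≤ t'} \ U, ?_, ?_, ?_, ?_, ?_, ?_⟩
  · exact hcl.inter hVo.isClosed_compl
  · exact hcl.inter hUo.isClosed_compl
  · rw [Set.disjoint_left]
    rintro x ⟨hx, hxV⟩ ⟨_, hxU⟩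
    rcases hsub hx with h | h
    · exact hxU h
    · exact hxV h
  · ext x
    constructor
    · rintro (⟨hx, _⟩ | ⟨hx, _⟩) <;> exact hx
    · intro hx
      rcases hsub hx with h | h
      · left; exact ⟨hx, fun h' => Set.disjoint_left.1 hUV h h'⟩
      · right; exact ⟨hx, fun h' => Set.disjoint_left.1 hUV h' h⟩
  · exact ⟨⟨hbm.1, hbm.2.trans ht'.le⟩, fun h' => Set.disjoint_left.1 hUV (hPU hb) h'⟩
  · exact ⟨⟨ham.1, ham.2.trans ht'.le⟩, fun h' => Set.disjoint_left.1 hUV h' (hRV ha)⟩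

/-- a lower bound for finitely many positive numbers -/
lemma exists_pos_le {ι : Type*} (F : Finset ι) (h : ι → ℝ) (hh : ∀ i ∈ F, 0 < h i) :
    ∃ ε : ℝ, 0 < ε ∧ ∀ i ∈ F, ε ≤ h i := by
  classical
  induction F using Finset.induction_on with
  | empty => exact ⟨1, one_pos, by simp⟩
  | insert i F _ ih =>
    obtain ⟨ε, hε, h1⟩ := ih (fun j hj => hh j (Finset.mem_insert_of_mem hj))
    refine ⟨min ε (h i), lt_min hε (hh i (Finset.mem_insert_self _ _)), ?_⟩
    intro j hj
    rcases Finset.mem_insert.1 hj with rfl | hj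
    · exact min_le_right _ _
    · exact (min_le_left _ _).trans (h1 j hj)

/-- an upper bound for finitely many numbers -/
lemma exists_ge {ι : Type*} (F : Finset ι) (h : ι → ℝ) : ∃ D : ℝ, 0 < D ∧ ∀ i ∈ F, h i ≤ D := by
  classical
  induction F using Finset.induction_on with
  | empty => exact ⟨1, one_pos, by simp⟩
  | insert i F _ ih =>
    obtain ⟨D, hD, h1⟩ := ih
    refine ⟨max D (h i), lt_max_of_lt_left hD, ?_⟩
    intro j hj
    rcases Finset.mem_insert.1 hj with rfl | hj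
    · exact le_max_right _ _
    · exact (h1 j hj).trans (le_max_left _ _)

lemma seg_class {P R S : Set X} (hP : IsClosed P) (hR : IsClosed R) (hd : Disjoint P R)
    (hU : P ∪ R = S) {u v : X} (huv : segment ℝ u v ⊆ S) (hu : u ∈ P) : v ∈ P := by
  by_contra hv
  have hvR : v ∈ R := by
    have : v ∈ P ∪ R := by rw [hU]; exact huv (right_mem_segment ℝ u v)
    exact this.resolve_left hv
  have hc : IsPreconnected (segment ℝ u v) := (convex_segment u v).isPreconnected
  have h1 := (isPreconnected_closed_iff.1 hc) P R hP hR (by rw [hU]; exact huv)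
    ⟨u, left_mem_segment ℝ u v, hu⟩ ⟨v, right_mem_segment ℝ u v, hvR⟩
  obtain ⟨x, _, hxP, hxR⟩ := h1
  exact Set.disjoint_left.1 hd hxP hxR

end Pool.Agent.Y380.LN
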