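import Pool.Agent.Y380.LN.Push

/-!
# A Krasnosel'skii type theorem for the points of local non-convexity
-/

set_option autoImplicit false

open Set Metric Module

namespace Pool.Agent.Y380.LN

variable {X : Type*} [NormedAddCommGroup X] [InnerProductSpace ℝ X]

/-- the points of local non-convexity -/
def Lnc (E : Set X) : Set X :=
  {x | x ∈ frontier E ∧ ∀ r : ℝ, 0 < r → ¬ Convex ℝ (ball x r ∩ E)}

lemma Lnc.isClosed (E : Set X) : IsClosed (Lnc E) := by
  rw [← isOpen_compl_iff, Metric.isOpen_iff]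
  intro x hx
  by_cases hfr : x ∈ frontier E
  · have hcv : ∃ r : ℝ, 0 < r ∧ Convex ℝ (ball x r ∩ E) := by
      by_contra hno
      push Not at hno
      exact hx ⟨hfr, hno⟩
    obtain ⟨r, hr, hc⟩ := hcv
    refine ⟨r / 2, by linarith, ?_⟩
    intro y hy hyL
    apply hyL.2 (r / 2) (by linarith)
    have h1 : ball y (r / 2) ∩ E = ball y (r / 2) ∩ (ball x r ∩ E) := by
      ext z
      constructor
      · rintro ⟨h1, h2⟩
        refine ⟨h1, ?_, h2⟩
        rw [mem_ball] at *
        have := dist_triangle z y x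
        linarith
      · rintro ⟨h1, _, h2⟩
        exact ⟨h1, h2⟩
    rw [h1]
    exact (convex_ball y (r / 2)).inter hc
  · have h1 : IsOpen (frontier E)ᶜ := isClosed_frontier.isOpen_compl
    obtain ⟨ε, hε, h⟩ := Metric.isOpen_iff.1 h1 x hfr
    exact ⟨ε, hε, fun y hy hyL => h hy hyL.1⟩

lemma Lnc.subset {E : Set X} (hE : IsClosed E) : Lnc E ⊆ E :=
  fun _ hx => hE.frontier_subset hx.1

lemma convex_of_not_lnc {E : Set X} {z : X} (hz : z ∈ E) (h : z ∉ Lnc E) :
    ∃ r > 0, Convex ℝ (ball z r ∩ E) := by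
  by_cases hfr : z ∈ frontier E
  · by_contra hno
    push Not at hno
    exact h ⟨hfr, fun r hr => hno r hr⟩
  · have h1 : z ∈ interior E := by
      by_contra h2
      exact hfr ⟨subset_closure hz, h2⟩
    obtain ⟨r, hr, h2⟩ := Metric.isOpen_iff.1 isOpen_interior z h1
    refine ⟨r, hr, ?_⟩
    rw [inter_eq_left.2 (h2.trans interior_subset)]
    exact convex_ball z r

/-- finitely many viewers suffice -/
lemma finite_viewers {E : Set X} (hE : IsCompact E) {n : ℕ}
    (hC : ∀ x : Fin n → X, (∀ i, x i ∈ Lnc E) → ∃ y ∈ E, ∀ i, Clear E y (x i)) :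
    ∃ S : Finset X, (S : Set X) ⊆ E ∧
      ∀ x : Fin n → X, (∀ i, x i ∈ Lnc E) → ∃ y ∈ S, ∀ i, Clear E y (x i) := by
  classical
  have hQ : IsCompact (Lnc E) := hE.of_isClosed_subset (Lnc.isClosed E) (Lnc.subset hE.isClosed)
  have hQn : IsCompact (Set.pi univ (fun _ : Fin n => Lnc E)) := isCompact_univ_pi fun _ => hQ
  -- the neighbourhood of a tuple
  have hnb : ∀ x ∈ Set.pi univ (fun _ : Fin n => Lnc E), ∃ y ∈ E, ∃ U : Set (Fin n → X),
      IsOpen U ∧ x ∈ U ∧ ∀ x' ∈ U, ∀ i, Clear E y (x' i) := by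
    intro x hx
    obtain ⟨y, hy, hc⟩ := hC x (fun i => hx i (mem_univ i))
    choose U hU hxU hUc using fun i => (hc i).near
    refine ⟨y, hy, Set.pi univ U, isOpen_set_pi finite_univ (fun i _ => hU i),
      fun i _ => hxU i, fun x' hx' i => hUc i _ (hx' i (mem_univ i))⟩
  choose! y hy U hU hxU hUc using hnb
  obtain ⟨F, hF, hcov⟩ := hQn.elim_nhds_subcover U (fun x hx => (hU x hx).mem_nhds (hxU x hx))
  refine ⟨F.image y, ?_, ?_⟩
  · intro v hv
    rw [Finset.coe_image] at hv
    obtain ⟨x, hx, rfl⟩ := hv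
    exact hy x (hF x hx)
  · intro x hx
    have h1 := hcov (show x ∈ Set.pi univ (fun _ : Fin n => Lnc E) from fun i _ => hx i)
    rw [mem_iUnion₂] at h1
    obtain ⟨x0, hx0, hxU0⟩ := h1
    exact ⟨y x0, Finset.mem_image_of_mem y hx0, hUc x0 (hF x0 hx0) x hxU0⟩

/-- **Main theorem**: the Krasnosel'skii number for clear visibility of the points of local
non-convexity is at most `dim + 1`. -/
theorem main [FiniteDimensional ℝ X] {E : Set X} (hE : IsCompact E) (hEc : IsConnected E)
    (hC : ∀ x : Fin (finrank ℝ X + 1) → X, (∀ i, x i ∈ Lnc E) → ∃ y ∈ E, ∀ i, Clear E y (x i)) :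
    ∃ y ∈ E, ∀ x ∈ E, segment ℝ y x ⊆ E := by
  classical
  -- a suitable point `p`
  obtain ⟨p, hp, hK⟩ : ∃ p ∈ convexHull ℝ E,
      ∀ z ∈ E, (∃ r > 0, Convex ℝ (ball z r ∩ E)) ∨ Star E p z := by
    rcases (Lnc E).eq_empty_or_nonempty with h0 | h0
    · obtain ⟨p, hp⟩ := hEc.nonempty
      refine ⟨p, subset_convexHull ℝ E hp, fun z hz => Or.inl (convex_of_not_lnc hz ?_)⟩
      rw [h0]
      exact notMem_empty z
    · obtain ⟨S, hSE, hS⟩ := finite_viewers hE hC
      set A : Lnc E → Set X := fun z => convexHull ℝ {v | v ∈ S ∧ Clear E v z} with hA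
      have hfin : ∀ z : Lnc E, {v | v ∈ S ∧ Clear E v (z : X)}.Finite := fun z =>
        S.finite_toSet.subset (fun v hv => hv.1)
      have hne : (⋂ z, A z).Nonempty := by
        apply Convex.helly_theorem_compact' (𝕜 := ℝ)
        · intro z; exact convex_convexHull ℝ _
        · intro z; exact (hfin z).isCompact_convexHull (𝕜 := ℝ)
        · intro I hI
          rcases I.eq_empty_or_nonempty with hI0 | ⟨z0, hz0⟩
          · subst hI0
            simp
          · let x : Fin (finrank ℝ X + 1) → Lnc E := fun i =>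
              if h : (i : ℕ) < I.card then (I.equivFin.symm ⟨i, h⟩ : I) else z0
            obtain ⟨v, hv, hvc⟩ := hS (fun i => (x i : X)) (fun i => (x i).2)
            refine ⟨v, ?_⟩
            rw [mem_iInter₂]
            intro z hz
            apply subset_convexHull
            refine ⟨hv, ?_⟩
            have hlt : ((I.equivFin ⟨z, hz⟩ : Fin I.card) : ℕ) < finrank ℝ X + 1 :=
              lt_of_lt_of_le (I.equivFin ⟨z, hz⟩).2 hI
            have h1 := hvc ⟨(I.equivFin ⟨z, hz⟩ : Fin I.card), hlt⟩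
            have h2 : x ⟨(I.equivFin ⟨z, hz⟩ : Fin I.card), hlt⟩ = z := by
              simp [x]
            rw [h2] at h1
            exact h1
      obtain ⟨p, hp⟩ := hne
      rw [mem_iInter] at hp
      refine ⟨p, ?_, ?_⟩
      · obtain ⟨z, hz⟩ := h0
        exact convexHull_mono (fun v hv => hSE hv.1) (hp ⟨z, hz⟩)
      · intro z hz
        by_cases hzL : z ∈ Lnc E
        · right
          exact star_of_hull (fun v hv => hv.2) (hp ⟨z, hzL⟩)
        · left
          exact convex_of_not_lnc hz hzL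
  have hst := starshaped_of_local hE hEc.isPreconnected hp hK
  obtain ⟨y0, hy0⟩ := hEc.nonempty
  refine ⟨p, hst y0 hy0 (right_mem_segment ℝ y0 p), fun x hx => ?_⟩
  rw [segment_symm]
  exact hst x hx

end Pool.Agent.Y380.LN
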