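import Pool.Agent.Y380.LN.Limit

/-!
# Clearly visible points, the nearest point trick, and starshapedness
-/

set_option autoImplicit false

open Set Metric

namespace Pool.Agent.Y380.LN

section norm

variable {X : Type*} [NormedAddCommGroup X] [NormedSpace ℝ X]

/-- the set of points towards which `E` can be pushed near `z` is convex -/
lemma convex_star (E : Set X) (z : X) : Convex ℝ {v | Star E v z} := by
  rintro qi ⟨ri, hri, si, hsi, hsi1, hi⟩ qj ⟨rj, hrj, sj, hsj, hsj1, hj⟩ α β hα hβ hαβ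
  have hα' : α = 1 - β := by linarith
  have hβ1 : β ≤ 1 := by linarith
  set D : ℝ := dist z qi + ri with hD
  have hD0 : 0 < D := by
    have : 0 ≤ dist z qi := dist_nonneg
    linarith
  set ρ : ℝ := min (ri / 2) (rj / 2) with hρ
  have hρ0 : 0 < ρ := lt_min (by linarith) (by linarith)
  set s : ℝ := min (min si sj) (min (1 / 2) (ρ / D / 2)) with hs
  have hs0 : 0 < s := by
    apply lt_min (lt_min hsi hsj) (lt_min (by norm_num) (by positivity))
  have hssi : s ≤ si := (min_le_left _ _).trans (min_le_left _ _)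
  have hssj : s ≤ sj := (min_le_left _ _).trans (min_le_right _ _)
  have hs2 : s ≤ 1 / 2 := (min_le_right _ _).trans (min_le_left _ _)
  have hs3 : s ≤ ρ / D / 2 := (min_le_right _ _).trans (min_le_right _ _)
  refine ⟨ρ, hρ0, s, hs0, by linarith, ?_⟩
  intro x hx hxz σ hσ0 hσs
  rcases hσ0.lt_or_eq with hσ | hσ
  · have h1 : σ * D < ρ := by
      have h2 : σ * D ≤ ρ / D / 2 * D := mul_le_mul_of_nonneg_right (hσs.trans hs3) hD0.le
      have h3 : ρ / D / 2 * D = ρ / 2 := by field_simp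
      linarith
    have hxi : dist x z < ri / 2 := hxz.trans_le (min_le_left _ _)
    have hxj : dist x z < rj / 2 := hxz.trans_le (min_le_right _ _)
    have hxD : dist x qi ≤ D := by
      have := dist_triangle x z qi
      linarith
    rw [hα']
    exact two_push hi hj hx hxi hxj (min_le_left _ _) (min_le_right _ _) hρ0
      (hσs.trans hssi) (hσs.trans hssj) hσ (hσs.trans hs2) hxD h1 hβ hβ1
  · rw [← hσ]
    simpa using hx

/-- `y` sees every point of `E` near `x` -/
def Clear (E : Set X) (y x : X) : Prop :=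
  ∃ r : ℝ, 0 < r ∧ ∀ z ∈ ball x r ∩ E, segment ℝ y z ⊆ E

lemma Clear.star {E : Set X} {y x : X} (h : Clear E y x) : Star E y x := by
  obtain ⟨r, hr, h⟩ := h
  refine ⟨r, hr, 1, one_pos, le_rfl, ?_⟩
  intro z hz hzx σ h0 h1
  apply h z ⟨hzx, hz⟩
  exact ⟨σ, 1 - σ, h0, by linarith, by ring, by abel⟩

lemma Clear.near {E : Set X} {y x : X} (h : Clear E y x) :
    ∃ U : Set X, IsOpen U ∧ x ∈ U ∧ ∀ x' ∈ U, Clear E y x' := by
  obtain ⟨r, hr, h⟩ := h
  refine ⟨ball x (r / 2), isOpen_ball, mem_ball_self (by linarith), ?_⟩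
  intro x' hx'
  refine ⟨r / 2, by linarith, ?_⟩
  intro z hz
  apply h z ⟨?_, hz.2⟩
  have h1 := hz.1
  rw [mem_ball] at *
  have := dist_triangle z x' x
  linarith

/-- the push towards a point of the hull of the clear viewers -/
lemma star_of_hull {E A : Set X} {z p : X} (hA : ∀ v ∈ A, Clear E v z)
    (hp : p ∈ convexHull ℝ A) : Star E p z := by
  have : convexHull ℝ A ⊆ {v | Star E v z} :=
    convexHull_min (fun v hv => (hA v hv).star) (convex_star E z)
  exact this hp

end norm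

section inner

variable {X : Type*} [NormedAddCommGroup X] [InnerProductSpace ℝ X]

open InnerProductSpace

lemma inner_le_zero {u v : X} {s : ℝ} (hs : 0 < s)
    (h : ∀ σ : ℝ, 0 < σ → σ ≤ s → ‖u‖ ≤ ‖u - σ • v‖) : ⟪v, u⟫_ℝ ≤ 0 := by
  by_contra hpos
  push Not at hpos
  set K : ℝ := ‖v‖ ^ 2 + 1 with hK
  have hK0 : 0 < K := by positivity
  set σ : ℝ := min s (⟪v, u⟫_ℝ / K) with hσ
  have hσ0 : 0 < σ := lt_min hs (by positivity)
  have h1 := h σ hσ0 (min_le_left _ _)
  have h2 : ‖u‖ ^ 2 ≤ ‖u - σ • v‖ ^ 2 := by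
    apply pow_le_pow_left₀ (norm_nonneg _) h1
  rw [norm_sub_sq_real, real_inner_smul_right, norm_smul, mul_pow, Real.norm_of_nonneg hσ0.le,
    real_inner_comm] at h2
  have h3 : σ * K ≤ ⟪v, u⟫_ℝ := by
    have : σ ≤ ⟪v, u⟫_ℝ / K := min_le_right _ _
    rwa [le_div_iff₀ hK0] at this
  have h4 : σ ^ 2 * ‖v‖ ^ 2 < σ ^ 2 * K := by
    apply mul_lt_mul_of_pos_left _ (by positivity)
    linarith
  have h5 : σ ^ 2 * K ≤ σ * ⟪v, u⟫_ℝ := by
    have := mul_le_mul_of_nonneg_left h3 hσ0.le
    nlinarith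
  have h6 : 0 < σ * ⟪v, u⟫_ℝ := by positivity
  linarith

/-- **The nearest point trick.** -/
lemma nearest {E : Set X} (hE : IsCompact E) {y p : X} (hy : y ∈ E)
    (hno : ¬ segment ℝ y p ⊆ E) :
    ∃ g w : X, w ∈ E ∧ 0 < ‖g - w‖ ∧ (∀ e ∈ E, ‖g - w‖ ≤ ‖g - e‖) ∧ 0 < ⟪p - w, g - w⟫_ℝ := by
  have hne : E.Nonempty := ⟨y, hy⟩
  have hEc : IsClosed E := hE.isClosed
  obtain ⟨x1, hx1, hx1E⟩ := not_subset.1 hno
  rw [segment_eq_image_lineMap] at hx1
  obtain ⟨τ1, hτ1, rfl⟩ := hx1
  set L : ℝ → X := fun τ => AffineMap.lineMap y p τ with hL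
  have hLc : Continuous L := by
    rw [hL]
    exact AffineMap.lineMap_continuous
  have hL' : ∀ τ, L τ = y + τ • (p - y) := by
    intro τ
    rw [hL]
    simp only [AffineMap.lineMap_apply, vsub_eq_sub, vadd_eq_add]
    rw [add_comm]
  set φ : ℝ → ℝ := fun τ => infDist (L τ) E with hφ
  have hφc : Continuous φ := (continuous_infDist_pt E).comp hLc
  have hφ0 : φ 0 = 0 := by
    have : L 0 = y := by rw [hL']; simp
    simp only [hφ]
    rw [this]
    exact infDist_zero_of_mem hy
  have hM : 0 < φ τ1 := by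
    have : ¬ L τ1 ∈ E := hx1E
    exact (hEc.notMem_iff_infDist_pos hne).1 this
  set ρ : ℝ := φ τ1 / 2 with hρ
  have hρ0 : 0 < ρ := by rw [hρ]; linarith
  set K : Set ℝ := {τ ∈ Icc 0 τ1 | φ τ ≤ ρ} with hK
  have hKc : IsCompact K := by
    apply isCompact_Icc.inter_right
    exact isClosed_le hφc continuous_const
  have hKne : K.Nonempty := ⟨0, ⟨le_rfl, hτ1.1⟩, by show φ 0 ≤ ρ; rw [hφ0]; exact hρ0.le⟩
  obtain ⟨t, ht, hmax⟩ := hKc.exists_isMaxOn hKne continuous_id.continuousOn
  have hmax' : ∀ τ ∈ K, τ ≤ t := fun τ hτ => hmax hτ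
  have htlt : t < τ1 := by
    rcases ht.1.2.lt_or_eq with h | h
    · exact h
    · exfalso
      have h1 := ht.2
      rw [h] at h1
      linarith
  have hgt : ∀ τ, t < τ → τ ≤ τ1 → ρ < φ τ := by
    intro τ h1 h2
    by_contra hle
    push Not at hle
    have := hmax' τ ⟨⟨ht.1.1.trans h1.le, h2⟩, hle⟩
    linarith
  have hφt : φ t = ρ := by
    apply le_antisymm ht.2
    -- by continuity
    have h1 : Filter.Tendsto φ (nhdsWithin t (Ioi t)) (nhds (φ t)) :=
      (hφc.tendsto t).mono_left nhdsWithin_le_nhds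
    apply ge_of_tendsto h1
    have h2 : Ioc t τ1 ∈ nhdsWithin t (Ioi t) := Ioc_mem_nhdsGT htlt
    filter_upwards [h2] with τ hτ
    exact (hgt τ hτ.1 hτ.2).le
  obtain ⟨w, hwE, hw⟩ := hE.exists_infDist_eq_dist hne (L t)
  have hgw : ‖L t - w‖ = ρ := by rw [← dist_eq_norm, ← hw]; exact hφt
  refine ⟨L t, w, hwE, by rw [hgw]; exact hρ0, ?_, ?_⟩
  · intro e he
    rw [hgw, ← hφt, ← dist_eq_norm]
    exact infDist_le_dist_of_mem he
  · have ht1 : 0 < 1 - t := by linarith [hτ1.2]
    -- the line goes away from `w`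
    have h1 : ⟪-(p - L t), L t - w⟫_ℝ ≤ 0 := by
      apply inner_le_zero (s := (τ1 - t) / (1 - t)) (by apply div_pos _ ht1; linarith)
      intro σ hσ0 hσ1
      rw [le_div_iff₀ ht1] at hσ1
      have h2 : ρ < φ (t + σ * (1 - t)) := hgt _ (by nlinarith [mul_pos hσ0 ht1]) (by linarith)
      have h3 : φ (t + σ * (1 - t)) ≤ ‖L (t + σ * (1 - t)) - w‖ := by
        rw [← dist_eq_norm]; exact infDist_le_dist_of_mem hwE
      have h4 : L (t + σ * (1 - t)) - w = L t - w - σ • -(p - L t) := by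
        rw [hL', hL']
        have : p - (y + t • (p - y)) = (1 - t) • (p - y) := by
          rw [sub_smul, one_smul]; abel
        rw [this, smul_neg, sub_neg_eq_add, smul_smul, add_smul]
        abel
      rw [hgw, ← h4]
      linarith
    rw [inner_neg_left] at h1
    have h5 : p - w = (p - L t) + (L t - w) := by abel
    rw [h5, inner_add_left, real_inner_self_eq_norm_sq, hgw]
    have : 0 < ρ ^ 2 := by positivity
    linarith

/-- **Starshapedness from local information.** -/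
theorem starshaped_of_local {E : Set X} (hE : IsCompact E) (hEc : IsPreconnected E) {p : X}
    (hp : p ∈ convexHull ℝ E)
    (hK : ∀ z ∈ E, (∃ r > 0, Convex ℝ (ball z r ∩ E)) ∨ Star E p z) :
    ∀ y ∈ E, segment ℝ y p ⊆ E := by
  intro y hy
  by_contra hno
  obtain ⟨g, w, hw, hu0, hnear, hin⟩ := nearest hE hy hno
  set u : X := g - w with hu
  set κ : ℝ := ⟪p - w, u⟫_ℝ with hκ
  -- `w` is not a pushable point
  have hns : ¬ Star E p w := by
    rintro ⟨r, hr, s, hs, hs1, h⟩
    have h1 : ⟪p - w, u⟫_ℝ ≤ 0 := by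
      apply inner_le_zero hs
      intro σ h0 h1
      have h2 := h w hw (by rw [dist_self]; exact hr) σ h0.le h1
      have h3 := hnear _ h2
      have h4 : g - ((1 - σ) • w + σ • p) = u - σ • (p - w) := by
        rw [hu, sub_smul, one_smul, smul_sub]; abel
      rwa [h4] at h3
    linarith
  obtain ⟨r, hr, hc⟩ : ∃ r > 0, Convex ℝ (ball w r ∩ E) := (hK w hw).resolve_right hns
  have hhalf : ∀ x ∈ E, dist x w < r → ⟪x - w, u⟫_ℝ ≤ 0 := by
    intro x hx hxw
    apply inner_le_zero one_pos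
    intro σ h0 h1
    have h2 := hc (x := w) ⟨mem_ball_self hr, hw⟩ (y := x) ⟨hxw, hx⟩ (a := 1 - σ) (b := σ)
      (by linarith) h0.le (by ring)
    have h3 := hnear _ h2.2
    have h4 : g - ((1 - σ) • w + σ • x) = u - σ • (x - w) := by
      rw [hu, sub_smul, one_smul, smul_sub]; abel
    rwa [h4] at h3
  -- a bound
  obtain ⟨D, hD, hDE⟩ : ∃ D : ℝ, 0 < D ∧ ∀ x ∈ E, ‖x - p‖ ≤ D := by
    obtain ⟨R0, hR0⟩ := hE.isBounded.subset_closedBall p
    refine ⟨|R0| + 1, by positivity, fun x hx => ?_⟩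
    have h1 := hR0 hx
    rw [mem_closedBall, dist_eq_norm] at h1
    have := le_abs_self R0
    linarith
  set η : ℝ := κ / (2 * D) with hη
  have hη0 : 0 < η := by positivity
  have hηE : ∀ x ∈ E, η * ‖x - p‖ < κ := by
    intro x hx
    have h1 : η * ‖x - p‖ ≤ η * D := mul_le_mul_of_nonneg_left (hDE x hx) hη0.le
    have h2 : η * D = κ / 2 := by rw [hη]; field_simp
    linarith
  set f : X → ℝ := fun x => max (⟪p - x, u⟫_ℝ) (η * ‖x - p‖) with hf
  have hfc : Continuous f := by
    rw [hf]; fun_prop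
  have hfconv : ConvexOn ℝ univ f := by
    apply ConvexOn.sup
    · refine ⟨convex_univ, ?_⟩
      intro x _ y _ a b ha hb hab
      apply le_of_eq
      have : p - (a • x + b • y) = a • (p - x) + b • (p - y) := by
        have : p = a • p + b • p := by rw [← add_smul, hab, one_smul]
        nth_rewrite 1 [this]
        rw [smul_sub, smul_sub]; abel
      show ⟪p - (a • x + b • y), u⟫_ℝ = a • ⟪p - x, u⟫_ℝ + b • ⟪p - y, u⟫_ℝ
      rw [this, inner_add_left, real_inner_smul_left, real_inner_smul_left, smul_eq_mul,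
        smul_eq_mul]
    · refine ⟨convex_univ, ?_⟩
      intro x _ y _ a b ha hb hab
      have h1 : (a • x + b • y) - p = a • (x - p) + b • (y - p) := by
        have : p = a • p + b • p := by rw [← add_smul, hab, one_smul]
        nth_rewrite 1 [this]
        rw [smul_sub, smul_sub]; abel
      have h2 : ‖(a • x + b • y) - p‖ ≤ a * ‖x - p‖ + b * ‖y - p‖ := by
        rw [h1]
        refine (norm_add_le _ _).trans ?_
        rw [norm_smul, norm_smul, Real.norm_of_nonneg ha, Real.norm_of_nonneg hb]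
      show η * ‖(a • x + b • y) - p‖ ≤ a • (η * ‖x - p‖) + b • (η * ‖y - p‖)
      simp only [smul_eq_mul]
      have h3 := mul_le_mul_of_nonneg_left h2 hη0.le
      linarith
  have hfp : f p = 0 := by simp [hf]
  have hfw : f w = κ := by
    simp only [hf]
    rw [max_eq_left]
    exact (hηE w hw).le
  have hLM : LM f E w := by
    refine ⟨r, hr, fun x hx hxw => ?_⟩
    rw [hfw]
    have h1 := hhalf x hx hxw
    have h2 : p - x = (p - w) - (x - w) := by abel
    have h3 : ⟪p - x, u⟫_ℝ = κ - ⟪x - w, u⟫_ℝ := by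
      rw [h2, inner_sub_left]
    have h4 : ⟪p - x, u⟫_ℝ ≤ f x := le_max_left _ _
    linarith
  obtain ⟨a, ha, hau⟩ : ∃ a ∈ E, 0 ≤ ⟪a - p, u⟫_ℝ := by
    by_contra hall
    push Not at hall
    have hconv : Convex ℝ {x : X | ⟪x - p, u⟫_ℝ < 0} := by
      intro x hx y hy a b ha hb hab
      have h1 : (a • x + b • y) - p = a • (x - p) + b • (y - p) := by
        have : p = a • p + b • p := by rw [← add_smul, hab, one_smul]
        nth_rewrite 1 [this]
        rw [smul_sub, smul_sub]; abel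
      show ⟪(a • x + b • y) - p, u⟫_ℝ < 0
      rw [h1, inner_add_left, real_inner_smul_left, real_inner_smul_left]
      have hx' : ⟪x - p, u⟫_ℝ < 0 := hx
      have hy' : ⟪y - p, u⟫_ℝ < 0 := hy
      rcases ha.lt_or_eq with h | h
      · nlinarith
      · have hb1 : b = 1 := by linarith
        rw [← h, hb1]
        linarith
    have h0 : p ∈ {x : X | ⟪x - p, u⟫_ℝ < 0} :=
      convexHull_min (fun x hx => hall x hx) hconv hp
    have h1 : ⟪p - p, u⟫_ℝ < 0 := h0
    rw [sub_self, inner_zero_left] at h1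
    exact lt_irrefl _ h1
  have hfa : f a < κ := by
    show max (⟪p - a, u⟫_ℝ) (η * ‖a - p‖) < κ
    apply max_lt _ (hηE a ha)
    have h1 : p - a = -(a - p) := by abel
    rw [h1, inner_neg_left]
    linarith
  have := mountain_pass hfconv hfc hE hEc hK ha hw hLM (by rw [hfp, hfw]; exact hin)
  rw [hfw] at this
  linarith

end inner

end Pool.Agent.Y380.LN
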